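import Pool.Agent.H93.VK.Fsc

/-!
# [H93 VK TRV] Simple connectivity by functionals

PROOFS (complete). `sc1_of_fil`: if `X` is empty, `g` is the empty function. Otherwise fix `x₀` and paths `γ x` from `x₀` to `x` (`fil0_iff`), `g x = Φ (γ x)`; for `p : Path x y` the paths `(γ x).trans p` and `γ y` are homotopic (`fil1_iff`), so `g x * Φ p = g y`.
`fil1_of_sc1`: `fil1_iff`. Let `p q : Path x y`; it is enough that `p.trans q.symm` is homotopic to `Path.refl x`. Let `G` be the group of the homotopy classes of loops at `x` with the multiplication `⟦a⟧ * ⟦b⟧ = ⟦a.trans b⟧` (`Path.Homotopic.Quotient x x`; the fundamental group of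
Mathlib `FundamentalGroup X x` or its `MulOpposite`, whichever has this order; `Quotient.comp`). For `z : X` choose a path `γ z` from `x` to `z` with `γ x = Path.refl x` (`fil0_iff`); `F.Φ (p : Path z w) = ⟦((γ z).trans p).trans (γ w).symm⟧` is a functional
(multiplicative since `(γ w).symm.trans (γ w)` is null). By `SC1` it is trivial, so `F.Φ l = (g x)⁻¹ * g x = 1` for every loop `l` at `x`, and `F.Φ l = ⟦l⟧`.
-/

set_option autoImplicit false

namespace Pool.H93.VK

open unitInterval Pool.H93.HU

variable {X : Type} [TopologicalSpace X]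

theorem sc1_of_fil (h0 : Fil X 0) (h1 : Fil X 1) : SC1 X := by
  intro G _ F
  rw [fil0_iff] at h0
  rw [fil1_iff] at h1
  rcases isEmpty_or_nonempty X with he | ⟨⟨x₀⟩⟩
  · exact ⟨fun _ => 1, fun x => (he.false x).elim⟩
  · refine ⟨fun x => F.Φ (h0 x₀ x).somePath, fun x y p => ?_⟩
    have h := F.hom' _ _ (h1 x₀ y ((h0 x₀ x).somePath.trans p) (h0 x₀ y).somePath)
    rw [F.mul'] at h
    exact eq_inv_mul_of_mul_eq h

private theorem q_cancel {a b c : X} (g : Path.Homotopic.Quotient a b)
    (r : Path.Homotopic.Quotient b c) : g.symm.trans (g.trans r) = r := by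
  rw [← Path.Homotopic.Quotient.trans_assoc, Path.Homotopic.Quotient.symm_trans,
    Path.Homotopic.Quotient.refl_trans]

theorem fil1_of_sc1 (h0 : Fil X 0) (h : SC1 X) : Fil X 1 := by
  rw [fil0_iff] at h0
  rw [fil1_iff]
  intro x y p q
  let γ : ∀ z : X, Path.Homotopic.Quotient x z := fun z =>
    Path.Homotopic.Quotient.mk (h0 x z).somePath
  let F : PF X (FundamentalGroup X x)ᵐᵒᵖ :=
    { Φ := fun {z w} p => MulOpposite.op (FundamentalGroup.fromPath
        (((γ z).trans (Path.Homotopic.Quotient.mk p)).trans (γ w).symm))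
      mul' := by
        intro a b c p q
        rw [← MulOpposite.op_mul]
        congr 1
        change ((γ a).trans (Path.Homotopic.Quotient.mk (p.trans q))).trans (γ c).symm =
          (((γ a).trans (Path.Homotopic.Quotient.mk p)).trans (γ b).symm).trans
            (((γ b).trans (Path.Homotopic.Quotient.mk q)).trans (γ c).symm)
        rw [Path.Homotopic.Quotient.mk_trans]
        simp only [Path.Homotopic.Quotient.trans_assoc]
        rw [q_cancel]
      hom' := by
        intro a b p q hpq
        rw [Path.Homotopic.Quotient.eq.2 hpq] }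
  obtain ⟨g, hg⟩ := h _ F
  have e := (hg x y p).trans (hg x y q).symm
  have e1 : ((γ x).trans (Path.Homotopic.Quotient.mk p)).trans (γ y).symm =
      ((γ x).trans (Path.Homotopic.Quotient.mk q)).trans (γ y).symm := MulOpposite.op_injective e
  have e2 : ∀ r : Path.Homotopic.Quotient x y,
      (γ x).symm.trans ((((γ x).trans r).trans (γ y).symm).trans (γ y)) = r := by
    intro r
    rw [Path.Homotopic.Quotient.trans_assoc, Path.Homotopic.Quotient.symm_trans,
      Path.Homotopic.Quotient.trans_refl, q_cancel]
  have e3 := e2 (Path.Homotopic.Quotient.mk p)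
  rw [e1, e2] at e3
  exact (Path.Homotopic.Quotient.eq.1 e3).symm

end Pool.H93.VK
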