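import Pool.Agent.H93.VK.Bas

/-!
# [H93 VK CYL] Functionals on a cylinder, on products with discrete spaces and on sums

PROOFS (complete). `triv_cyl`: let `p` be a path from `(e, t)` to `(e', t')`, `H (s, r) = ((p s).1, r * (p s).2)` (product in `I`): `row H 1 = p`, `row H 0` is the image of the path `s ↦ (p s).1` under `e ↦ (e, 0)`, `col H 0 = vp e t`, `col H 1 = vp e' t'` (up to cast: `PF.cast'`). `PF.square`.
`sc1_prod`: `g (d, z) = g_d z` where `Triv (F.comp (z ↦ (d, z))) g_d`; a path in `D × Z` has constant first coordinate (`D` discrete), so it is the image of a path of `Z`. `sc1_sum`: a path in `X ⊕ Y` lies in `X` or in `Y` (preconnected), it is the image of a path.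
-/

set_option autoImplicit false

namespace Pool.H93.VK

open unitInterval

/-- the vertical path from `(e, 0)` to `(e, t)` -/
def vp {E : Type} [TopologicalSpace E] (e : E) (t : I) : Path ((e, 0) : E × I) (e, t) where
  toFun s := (e, s * t)
  continuous_toFun := by fun_prop
  source' := by simp
  target' := by simp

private theorem congr_path {X : Type} [TopologicalSpace X] {G : Type} [Group G] (F : PF X G)
    {x y x' y' : X} (p : Path x y) (q : Path x' y') (h : ∀ s, p s = q s) : F.Φ p = F.Φ q := by
  have hx : x = x' := by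
    rw [← p.source, ← q.source]
    exact h 0
  have hy : y = y' := by
    rw [← p.target, ← q.target]
    exact h 1
  subst hx
  subst hy
  have hpq : p = q := Path.ext (funext h)
  rw [hpq]

theorem triv_cyl {E : Type} [TopologicalSpace E] {G : Type} [Group G] (F : PF (E × I) G)
    (g : E × I → G)
    (h0 : Triv (F.comp (⟨fun e => (e, 0), by fun_prop⟩ : C(E, E × I))) (fun e => g (e, 0)))
    (h1 : ∀ e t, F.Φ (vp e t) = (g (e, 0))⁻¹ * g (e, t)) : Triv F g := by
  rintro ⟨e, t⟩ ⟨e', t'⟩ p
  obtain ⟨H, hH⟩ : ∃ H : C(I × I, E × I), ∀ s r, H (s, r) = ((p s).1, r * (p s).2) :=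
    ⟨⟨fun q => ((p q.1).1, q.2 * (p q.1).2), by fun_prop⟩, fun s r => rfl⟩
  have hsq := F.square H
  have a1 : F.Φ (row H 1) = F.Φ p := by
    refine congr_path F _ _ fun s => ?_
    change H (s, 1) = p s
    rw [hH, one_mul]
  have a2 : F.Φ (row H 0) = (g (e, 0))⁻¹ * g (e', 0) := by
    have h2 := h0 e e' (p.map continuous_fst)
    rw [← h2]
    refine congr_path F _ _ fun s => ?_
    change H (s, 0) = ((p s).1, 0)
    rw [hH, zero_mul]
  have a3 : F.Φ (col H 0) = (g (e, 0))⁻¹ * g (e, t) := by
    rw [← h1]
    refine congr_path F _ _ fun r => ?_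
    change H (0, r) = (e, r * t)
    rw [hH, p.source]
  have a4 : F.Φ (col H 1) = (g (e', 0))⁻¹ * g (e', t') := by
    rw [← h1]
    refine congr_path F _ _ fun r => ?_
    change H (1, r) = (e', r * t')
    rw [hH, p.target]
  rw [a1, a2, a3, a4] at hsq
  have h3 : F.Φ p = ((g (e, 0))⁻¹ * g (e, t))⁻¹ *
      ((g (e, 0))⁻¹ * g (e', 0) * ((g (e', 0))⁻¹ * g (e', t'))) := by
    rw [← hsq, inv_mul_cancel_left]
  rw [h3]
  group

theorem sc1_prod {D Z : Type} [TopologicalSpace D] [DiscreteTopology D] [TopologicalSpace Z]
    (h : SC1 Z) : SC1 (D × Z) := by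
  intro G _ F
  choose g hg using fun d : D => h G (F.comp (⟨fun z => (d, z), by fun_prop⟩ : C(Z, D × Z)))
  refine ⟨fun x => g x.1 x.2, ?_⟩
  rintro ⟨d, z⟩ ⟨d', z'⟩ p
  have hc : ∀ s, (p s).1 = d := by
    intro s
    have h1 : Continuous fun s : I => (p s).1 := by fun_prop
    have h2 := PreconnectedSpace.constant inferInstance h1 (x := s) (y := 0)
    rw [h2, p.source]
  have hd : d' = d := by
    have := hc 1
    rwa [p.target] at this
  subst hd
  have h2 := hg d' z z' (p.map continuous_snd)
  change F.Φ p = (g d' z)⁻¹ * g d' z'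
  rw [← h2]
  refine congr_path F _ _ fun s => ?_
  change p s = (d', (p s).2)
  exact Prod.ext (hc s) rfl

theorem sc1_sum {X Y : Type} [TopologicalSpace X] [TopologicalSpace Y] (hX : SC1 X) (hY : SC1 Y) :
    SC1 (X ⊕ Y) := by
  intro G _ F
  obtain ⟨gX, hgX⟩ := hX G (F.comp (⟨Sum.inl, continuous_inl⟩ : C(X, X ⊕ Y)))
  obtain ⟨gY, hgY⟩ := hY G (F.comp (⟨Sum.inr, continuous_inr⟩ : C(Y, X ⊕ Y)))
  have hcL : Continuous (Sum.isLeft : X ⊕ Y → Bool) :=
    continuous_sum_dom.2 ⟨continuous_const, continuous_const⟩
  refine ⟨Sum.elim gX gY, ?_⟩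
  intro x y p
  have hc : ∀ s, (p s).isLeft = x.isLeft := by
    intro s
    have h1 : Continuous fun s : I => (p s).isLeft := hcL.comp p.continuous
    have h2 := PreconnectedSpace.constant inferInstance h1 (x := s) (y := 0)
    rw [h2, p.source]
  have hy : y.isLeft = x.isLeft := by
    have := hc 1
    rwa [p.target] at this
  rcases x with a | a
  · rcases y with b | b
    · have hL : ∀ s, ∃ c : X, p s = Sum.inl c := by
        intro s
        exact Sum.isLeft_iff.1 (hc s)
      choose q hq using hL
      have hqc : Continuous q := by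
        rw [(Topology.IsClosedEmbedding.inl (X := X) (Y := Y)).isInducing.continuous_iff]
        have : (Sum.inl ∘ q : I → X ⊕ Y) = p := by
          funext s
          exact (hq s).symm
        rw [this]
        exact p.continuous
      have q0 : q 0 = a := by
        have := hq 0
        rw [p.source] at this
        exact (Sum.inl.inj this).symm
      have q1 : q 1 = b := by
        have := hq 1
        rw [p.target] at this
        exact (Sum.inl.inj this).symm
      have h2 := hgX a b ⟨⟨q, hqc⟩, q0, q1⟩
      change F.Φ p = (gX a)⁻¹ * gX b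
      rw [← h2]
      refine congr_path F _ _ fun s => ?_
      exact hq s
    · exact absurd hy (by simp)
  · rcases y with b | b
    · exact absurd hy (by simp)
    · have hR : ∀ s, ∃ c : Y, p s = Sum.inr c := by
        intro s
        have := hc s
        rcases hps : p s with c | c
        · rw [hps] at this
          exact absurd this (by simp)
        · exact ⟨c, rfl⟩
      choose q hq using hR
      have hqc : Continuous q := by
        rw [(Topology.IsClosedEmbedding.inr (X := X) (Y := Y)).isInducing.continuous_iff]
        have : (Sum.inr ∘ q : I → X ⊕ Y) = p := by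
          funext s
          exact (hq s).symm
        rw [this]
        exact p.continuous
      have q0 : q 0 = a := by
        have := hq 0
        rw [p.source] at this
        exact (Sum.inr.inj this).symm
      have q1 : q 1 = b := by
        have := hq 1
        rw [p.target] at this
        exact (Sum.inr.inj this).symm
      have h2 := hgY a b ⟨⟨q, hqc⟩, q0, q1⟩
      change F.Φ p = (gY a)⁻¹ * gY b
      rw [← h2]
      refine congr_path F _ _ fun s => ?_
      exact hq s

end Pool.H93.VK
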