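import Pool.Agent.H93.VK.Vpo
import Pool.Agent.H93.VK.Cyl
import Pool.Agent.H93.HM.Clr
import Pool.Agent.H18.AR.HcT

/-!
# [H93 VK VHC] Simple connectivity of a tree of spaces

PROOF (complete). `N = HC d₀ d₁`, `F : PF N G`. `sV` gives `g₀ : V → G` with `Triv (F.comp vt) g₀`. For `e : E` let `X e : Path (vt (d₀ e)) (vt (d₁ e))` be `t ↦ ed e t` (`HC.ed_zero`, `HC.ed_one`). For a path `p` from `e` to `e'` in `E` the square `H (s, r) = ed (p s) r` and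
`PF.square` give `Φ (X e) * Φ (vt d₁ p) = Φ (vt d₀ p) * Φ (X e')`, so `u e := g₀ (d₀ e) * Φ (X e) * (g₀ (d₁ e))⁻¹` satisfies `u e = u e'` if `e`, `e'` are joined, in particular if `cE e = cE e'` (`hcE`): there is `c : κ → G` with `u e = c (cE e)` for all `e`. `hT`: `k`.
Put `g₁ v = k (cV v) * g₀ v`; `Triv (F.comp vt) g₁` since joined points have the same `cV` (`hcV`). For all `e`: `g₁ (d₁ e) = k (b (cE e)) * g₀ (d₁ e) = k (a (cE e)) * u e * g₀ (d₁ e) = g₁ (d₀ e) * Φ (X e)`.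
`g = HC.desc g₁ (fun e t => g₁ (d₀ e) * Φ (the path s ↦ ed e (s * t)))`; compatible: at `t = 0` the path is constant (`PF.const'`), at `t = 1` it is `X e`. `HC.desc_ed`, `HC.desc_vt`.
`triv_po` (`HC.hc_data`, `collar_hc E`, `LCS (E × unitInterval)` by `lcs_prod hE lcs_compact`): on `V`: `Triv (F.comp vt) g₁`. On `E × I`: `triv_cyl`: at `t = 0` it is the pullback of the former by `d₀`; the vertical paths are the paths in the definition of `g`.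
`fil0_hc`: `fil0_iff`. Every point of `N` is joined to a point `vt v` (`HC.cases`, the path `ed e (s t)`). Let `x₀ = vt v₀` (if `V` is empty so is `N`); `f i := ∀ v, cV v = i → Joined (vt v₀) (vt v)`. For `e : E`: `f (a (cE e)) ↔ f (b (cE e))` because `vt (d₀ e)`, `vt (d₁ e)` are joined by
`X e` and all `v` with `cV v = cV (d₀ e)` are joined to `d₀ e` in `V`. `f (cV v₀)` holds. So `f i` for all `i`.
-/

set_option autoImplicit false

namespace Pool.H93.VK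

open Pool.Agent.H18.AR Pool.H93.HM Pool.H93.HU

variable {V E ι κ : Type} [TopologicalSpace V] [TopologicalSpace E] (d₀ d₁ : C(E, V))

/-- the path along the cylinder -/
private noncomputable def XP (e : E) : Path (HC.vt (d₀ e) : HC d₀ d₁) (HC.vt (d₁ e)) where
  toFun t := HC.ed e t
  continuous_toFun := PO.jB_continuous.comp (by fun_prop)
  source' := HC.ed_zero e
  target' := HC.ed_one e

/-- the square swept out by a path -/
private noncomputable def SQ {e e' : E} (p : Path e e') :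
    C(unitInterval × unitInterval, HC d₀ d₁) where
  toFun z := HC.ed (p z.1) z.2
  continuous_toFun := PO.jB_continuous.comp
    ((p.continuous.comp continuous_fst).prodMk continuous_snd)

private theorem col_SQ {G : Type} [Group G] (F : PF (HC d₀ d₁) G) {e e' : E} (p : Path e e')
    (s : unitInterval) : F.Φ (col (SQ d₀ d₁ p) s) = F.Φ (XP d₀ d₁ (p s)) := by
  have h : col (SQ d₀ d₁ p) s =
      (XP d₀ d₁ (p s)).cast (HC.ed_zero (p s)) (HC.ed_one (p s)) := by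
    ext t
    rfl
  exact (congrArg F.Φ h).trans (F.cast' _ (HC.ed_zero (p s)) (HC.ed_one (p s)))

private theorem row_SQ0 {G : Type} [Group G] (F : PF (HC d₀ d₁) G) {e e' : E} (p : Path e e') :
    F.Φ (row (SQ d₀ d₁ p) 0) =
      (F.comp (jYc (hcA E) (hcφ d₀ d₁))).Φ (p.map d₀.continuous) := by
  have e0 : SQ d₀ d₁ p (0, 0) = jYc (hcA E) (hcφ d₀ d₁) (d₀ e) := by
    change (HC.ed (p 0) 0 : HC d₀ d₁) = HC.vt (d₀ e)
    rw [HC.ed_zero, p.source]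
  have e1 : SQ d₀ d₁ p (1, 0) = jYc (hcA E) (hcφ d₀ d₁) (d₀ e') := by
    change (HC.ed (p 1) 0 : HC d₀ d₁) = HC.vt (d₀ e')
    rw [HC.ed_zero, p.target]
  have h : row (SQ d₀ d₁ p) 0 =
      ((p.map d₀.continuous).map (jYc (hcA E) (hcφ d₀ d₁)).continuous).cast e0 e1 := by
    ext t
    exact HC.ed_zero (p t)
  exact (congrArg F.Φ h).trans (F.cast' _ e0 e1)

private theorem row_SQ1 {G : Type} [Group G] (F : PF (HC d₀ d₁) G) {e e' : E} (p : Path e e') :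
    F.Φ (row (SQ d₀ d₁ p) 1) =
      (F.comp (jYc (hcA E) (hcφ d₀ d₁))).Φ (p.map d₁.continuous) := by
  have e0 : SQ d₀ d₁ p (0, 1) = jYc (hcA E) (hcφ d₀ d₁) (d₁ e) := by
    change (HC.ed (p 0) 1 : HC d₀ d₁) = HC.vt (d₁ e)
    rw [HC.ed_one, p.source]
  have e1 : SQ d₀ d₁ p (1, 1) = jYc (hcA E) (hcφ d₀ d₁) (d₁ e') := by
    change (HC.ed (p 1) 1 : HC d₀ d₁) = HC.vt (d₁ e')
    rw [HC.ed_one, p.target]
  have h : row (SQ d₀ d₁ p) 1 =
      ((p.map d₁.continuous).map (jYc (hcA E) (hcφ d₀ d₁)).continuous).cast e0 e1 := by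
    ext t
    exact HC.ed_one (p t)
  exact (congrArg F.Φ h).trans (F.cast' _ e0 e1)

theorem sc1_hc (hV : LCS V) (hE : LCS E) (h0 : IsProperMap d₀) (h1 : IsProperMap d₁) (sV : SC1 V)
    (cV : V → ι) (hcV : ∀ v v', cV v = cV v' ↔ Joined v v') (cE : E → κ)
    (hcE : ∀ e e', cE e = cE e' → Joined e e') (a b : κ → ι) (ha : ∀ e, cV (d₀ e) = a (cE e))
    (hb : ∀ e, cV (d₁ e) = b (cE e))
    (hT : ∀ (G : Type) [Group G] (c : κ → G), ∃ k : ι → G, ∀ j, k (b j) = k (a j) * c j) :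
    SC1 (HC d₀ d₁) := by
  classical
  intro G _ F
  obtain ⟨g₀, hg₀⟩ := sV G (F.comp (jYc (hcA E) (hcφ d₀ d₁)))
  let u : E → G := fun e => g₀ (d₀ e) * F.Φ (XP d₀ d₁ e) * (g₀ (d₁ e))⁻¹
  have hu : ∀ e e', cE e = cE e' → u e = u e' := by
    intro e e' h
    obtain ⟨p⟩ := hcE e e' h
    have hs := F.square (SQ d₀ d₁ p)
    rw [col_SQ, col_SQ, row_SQ0, row_SQ1, hg₀, hg₀, p.source, p.target] at hs
    change g₀ (d₀ e) * F.Φ (XP d₀ d₁ e) * (g₀ (d₁ e))⁻¹ =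
      g₀ (d₀ e') * F.Φ (XP d₀ d₁ e') * (g₀ (d₁ e'))⁻¹
    calc g₀ (d₀ e) * F.Φ (XP d₀ d₁ e) * (g₀ (d₁ e))⁻¹
        = g₀ (d₀ e) * (F.Φ (XP d₀ d₁ e) * ((g₀ (d₁ e))⁻¹ * g₀ (d₁ e'))) * (g₀ (d₁ e'))⁻¹ := by
          group
      _ = g₀ (d₀ e) * ((g₀ (d₀ e))⁻¹ * g₀ (d₀ e') * F.Φ (XP d₀ d₁ e')) * (g₀ (d₁ e'))⁻¹ := by
          rw [hs]
      _ = g₀ (d₀ e') * F.Φ (XP d₀ d₁ e') * (g₀ (d₁ e'))⁻¹ := by group
  have hc : ∃ c : κ → G, ∀ e, c (cE e) = u e := by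
    refine ⟨fun j => if h : ∃ e, cE e = j then u h.choose else 1, fun e => ?_⟩
    have h : ∃ e', cE e' = cE e := ⟨e, rfl⟩
    change (if h : ∃ e', cE e' = cE e then u h.choose else 1) = u e
    rw [dif_pos h]
    exact hu _ _ h.choose_spec
  obtain ⟨c, hc⟩ := hc
  obtain ⟨k, hk⟩ := hT G c
  let g₁ : V → G := fun v => k (cV v) * g₀ v
  have hg₁ : Triv (F.comp (jYc (hcA E) (hcφ d₀ d₁))) g₁ := by
    intro x y p
    have hxy : cV x = cV y := (hcV x y).2 ⟨p⟩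
    rw [hg₀ x y p]
    change _ = (k (cV x) * g₀ x)⁻¹ * (k (cV y) * g₀ y)
    rw [hxy]
    group
  have hg₁e : ∀ e, g₁ (d₀ e) * F.Φ (XP d₀ d₁ e) = g₁ (d₁ e) := by
    intro e
    change k (cV (d₀ e)) * g₀ (d₀ e) * F.Φ (XP d₀ d₁ e) = k (cV (d₁ e)) * g₀ (d₁ e)
    rw [hb, hk, hc, ha]
    change _ = k (a (cE e)) * (g₀ (d₀ e) * F.Φ (XP d₀ d₁ e) * (g₀ (d₁ e))⁻¹) * g₀ (d₁ e)
    group
  let gE : E → unitInterval → G := fun e t =>
    g₁ (d₀ e) * (F.comp (jBc (hcA E) (hcφ d₀ d₁))).Φ (vp e t)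
  have hE0 : ∀ e, gE e 0 = g₁ (d₀ e) := by
    intro e
    change g₁ (d₀ e) * (F.comp (jBc (hcA E) (hcφ d₀ d₁))).Φ (vp e 0) = g₁ (d₀ e)
    rw [PF.const', mul_one]
    intro t
    change (e, t * 0) = (e, (0 : unitInterval))
    rw [mul_zero]
  have hE1 : ∀ e, gE e 1 = g₁ (d₁ e) := by
    intro e
    rw [← hg₁e e]
    change g₁ (d₀ e) * F.Φ ((vp e 1).map (jBc (hcA E) (hcφ d₀ d₁)).continuous) = _
    have h : (vp e 1).map (jBc (hcA E) (hcφ d₀ d₁)).continuous =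
        (XP d₀ d₁ e).cast (HC.ed_zero e) (HC.ed_one e) := by
      ext t
      change HC.ed e (t * 1) = HC.ed e t
      rw [mul_one]
    exact congrArg (g₁ (d₀ e) * ·)
      ((congrArg F.Φ h).trans (F.cast' _ (HC.ed_zero e) (HC.ed_one e)))
  have hd : ∀ (e : E) (t : unitInterval),
      HC.desc (d0 := d₀) (d1 := d₁) g₁ gE (PO.jB (hcA E) (hcφ d₀ d₁) (e, t)) = gE e t :=
    fun e t => HC.desc_ed g₁ gE hE0 hE1 e t
  refine ⟨HC.desc g₁ gE, triv_po (HC.hc_data hV hE h0 h1) hV (lcs_prod hE lcs_compact)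
    (collar_hc E) F (HC.desc g₁ gE) hg₁ ?_⟩
  refine triv_cyl (F.comp (jBc (hcA E) (hcφ d₀ d₁)))
    (fun x => HC.desc (d0 := d₀) (d1 := d₁) g₁ gE (PO.jB (hcA E) (hcφ d₀ d₁) x)) ?_ ?_
  · intro x y p
    change _ = (HC.desc (d0 := d₀) (d1 := d₁) g₁ gE (PO.jB (hcA E) (hcφ d₀ d₁) (x, 0)))⁻¹ *
      (HC.desc (d0 := d₀) (d1 := d₁) g₁ gE (PO.jB (hcA E) (hcφ d₀ d₁) (y, 0)))
    rw [hd, hd, hE0, hE0]
    have h2 := hg₁ _ _ (p.map d₀.continuous)
    rw [← h2]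
    change F.Φ ((p.map (_ : Continuous fun e : E => (e, (0 : unitInterval)))).map
      (jBc (hcA E) (hcφ d₀ d₁)).continuous) =
      F.Φ ((p.map d₀.continuous).map (jYc (hcA E) (hcφ d₀ d₁)).continuous)
    have h : (p.map (show Continuous fun e : E => (e, (0 : unitInterval)) by fun_prop)).map
        (jBc (hcA E) (hcφ d₀ d₁)).continuous =
        ((p.map d₀.continuous).map (jYc (hcA E) (hcφ d₀ d₁)).continuous).cast
          (HC.ed_zero x) (HC.ed_zero y) := by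
      ext t
      exact HC.ed_zero (p t)
    exact (congrArg F.Φ h).trans (F.cast' _ (HC.ed_zero x) (HC.ed_zero y))
  · intro e t
    change _ = (HC.desc (d0 := d₀) (d1 := d₁) g₁ gE (PO.jB (hcA E) (hcφ d₀ d₁) (e, 0)))⁻¹ *
      (HC.desc (d0 := d₀) (d1 := d₁) g₁ gE (PO.jB (hcA E) (hcφ d₀ d₁) (e, t)))
    rw [hd, hd, hE0]
    change _ = (g₁ (d₀ e))⁻¹ * (g₁ (d₀ e) * (F.comp (jBc (hcA E) (hcφ d₀ d₁))).Φ (vp e t))
    group

theorem fil0_hc (cV : V → ι) (hcV : ∀ v v', cV v = cV v' → Joined v v') (cE : E → κ)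
    (a b : κ → ι) (ha : ∀ e, cV (d₀ e) = a (cE e)) (hb : ∀ e, cV (d₁ e) = b (cE e))
    (hconn : ∀ f : ι → Prop, (∀ e : E, f (a (cE e)) ↔ f (b (cE e))) → ∀ i i', f i ↔ f i') :
    Fil (HC d₀ d₁) 0 := by
  rw [fil0_iff]
  have hmap : ∀ v w : V, Joined v w → Joined (HC.vt v : HC d₀ d₁) (HC.vt w) := by
    rintro v w ⟨p⟩
    exact ⟨p.map (jYc (hcA E) (hcφ d₀ d₁)).continuous⟩
  have hv : ∀ x : HC d₀ d₁, ∃ v, Joined (HC.vt v : HC d₀ d₁) x := by
    intro x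
    rcases HC.cases x with ⟨v, rfl⟩ | ⟨e, t, rfl⟩
    · exact ⟨v, Joined.refl _⟩
    · refine ⟨d₀ e, ?_⟩
      have h : Joined (HC.ed e 0 : HC d₀ d₁) (HC.ed e t) :=
        ⟨(vp e t).map (jBc (hcA E) (hcφ d₀ d₁)).continuous⟩
      rw [HC.ed_zero] at h
      exact h
  have hX : ∀ e : E, Joined (HC.vt (d₀ e) : HC d₀ d₁) (HC.vt (d₁ e)) := fun e => ⟨XP d₀ d₁ e⟩
  have hvv : ∀ v v' : V, Joined (HC.vt v : HC d₀ d₁) (HC.vt v') := by
    intro v v'
    have hf := hconn (fun i => ∀ w, cV w = i → Joined (HC.vt v : HC d₀ d₁) (HC.vt w)) (by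
      intro e
      constructor
      · intro h w hw
        have h2 := h (d₀ e) (ha e)
        exact (h2.trans (hX e)).trans (hmap _ _ (hcV _ _ ((hb e).trans hw.symm)))
      · intro h w hw
        have h2 := h (d₁ e) (hb e)
        exact (h2.trans (hX e).symm).trans (hmap _ _ (hcV _ _ ((ha e).trans hw.symm))))
      (cV v) (cV v')
    exact hf.1 (fun w hw => hmap _ _ (hcV _ _ hw.symm)) v' rfl
  intro x y
  obtain ⟨v, hv1⟩ := hv x
  obtain ⟨w, hw1⟩ := hv y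
  exact (hv1.symm.trans (hvv v w)).trans hw1

end Pool.H93.VK
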