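import Pool.Agent.H93.VK.Defs

/-!
# [H93 VK BAS] Basic properties of path functionals

PROOFS (complete). `PF.refl'`: `(Path.refl x).trans (Path.refl x) = Path.refl x` (`Path.refl_trans_refl`), so `Φ * Φ = Φ`. `PF.symm'`: `p.trans p.symm` is homotopic to `Path.refl` (`Path.Homotopic.trans_symm` or `Path.Homotopy.reflTransSymm`). `PF.cast'`: `subst`.
`PF.square`: in the contractible (convex) square `I × I` the two paths `(0,0) → (0,1) → (1,1)` and `(0,0) → (1,0) → (1,1)` are homotopic (`I × I` is simply connected: `SimplyConnectedSpace` of a contractible space, `SimplyConnectedSpace.paths_homotopic`; or the linear homotopy);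
map by `H` (`Path.map_trans`, `Path.Homotopic.map`), `col H 0` etc. are the images of the four sides.
-/

set_option autoImplicit false

namespace Pool.H93.VK

open unitInterval

variable {X : Type} [TopologicalSpace X] {G : Type} [Group G]

theorem PF.refl' (F : PF X G) (x : X) : F.Φ (Path.refl x) = 1 := by
  have h := F.mul' (Path.refl x) (Path.refl x)
  rw [Path.refl_trans_refl] at h
  exact (left_eq_mul.1 h)

theorem PF.symm' (F : PF X G) {x y : X} (p : Path x y) : F.Φ p.symm = (F.Φ p)⁻¹ := by
  have h1 : F.Φ p * F.Φ p.symm = 1 := by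
    rw [← F.mul', ← F.refl' x]
    exact (F.hom' _ _ ⟨Path.Homotopy.reflTransSymm p⟩).symm
  exact (inv_eq_of_mul_eq_one_right h1).symm

theorem PF.cast' (F : PF X G) {x y x' y' : X} (p : Path x y) (hx : x' = x) (hy : y' = y) :
    F.Φ (p.cast hx hy) = F.Φ p := by
  subst hx
  subst hy
  rfl

theorem PF.const' (F : PF X G) {x y : X} (p : Path x y) (h : ∀ t, p t = x) : F.Φ p = 1 := by
  have h1 : y = x := by
    rw [← p.target]
    exact h 1
  subst h1
  have h2 : p = Path.refl y := by
    ext t
    exact h t
  rw [h2, F.refl']

private theorem contr : ContractibleSpace (I × I) := by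
  have h1 : ContractibleSpace I := (convex_Icc (0 : ℝ) 1).contractibleSpace ⟨0, by simp⟩
  infer_instance

theorem PF.square (F : PF X G) (H : C(I × I, X)) :
    F.Φ (col H 0) * F.Φ (row H 1) = F.Φ (row H 0) * F.Φ (col H 1) := by
  have := contr
  have hid : (col H 0).trans (row H 1) =
      ((col (ContinuousMap.id (I × I)) 0).trans (row (ContinuousMap.id (I × I)) 1)).map H.continuous := by
    rw [Path.map_trans]
    rfl
  have hid2 : (row H 0).trans (col H 1) =
      ((row (ContinuousMap.id (I × I)) 0).trans (col (ContinuousMap.id (I × I)) 1)).map H.continuous := by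
    rw [Path.map_trans]
    rfl
  rw [← F.mul', ← F.mul', hid, hid2]
  refine F.hom' _ _ ?_
  exact (SimplyConnectedSpace.paths_homotopic _ _).map H

end Pool.H93.VK
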