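import Pool.Agent.H93.VK.Trv

/-!
# [H93 VK CVR] Local triviality

PROOF (complete). Let `p : Path x y`, `F' = F.comp (p : C(I, X))` on `I`, `g' = g ∘ p`. `I` is contractible, so its paths with the same ends are homotopic (`SimplyConnectedSpace` or `sc1_of_fil`): there is `k : I → G` with `Triv F' k`. The function `t ↦ g' t * (k t)⁻¹` is locally constant:
for `t ∈ I`, say `p t ∈ U`, there is an interval neighbourhood (`OrdConnected`, or a ball) of `t` on which `p` is in `U`; for `t'` in it the straight path `l` from `t` to `t'` stays in it, `h1` for `l.map p` gives `F'.Φ l = (g' t)⁻¹ * g' t'`, and `F'.Φ l = (k t)⁻¹ * k t'`, so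
`g' t' * (k t')⁻¹ = g' t * (k t)⁻¹`. `I` is connected: it is constant (`IsLocallyConstant.apply_eq_of_isPreconnected` ...). Now `p` is the image of the identity path of `I` (from `0` to `1`) under `p`: `F.Φ p = F'.Φ id = (k 0)⁻¹ * k 1 = (g' 0)⁻¹ * g' 1 = (g x)⁻¹ * g y` (`PF.cast'` if needed).
-/

set_option autoImplicit false

namespace Pool.H93.VK

open unitInterval

private theorem seg_mem (a b s : I) : (1 - (s : ℝ)) * a + s * b ∈ Set.Icc (0 : ℝ) 1 := by
  have ha := a.2
  have hb := b.2
  have hs := s.2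
  have h1 : 0 ≤ 1 - (s : ℝ) := by linarith [hs.2]
  constructor
  · exact add_nonneg (mul_nonneg h1 ha.1) (mul_nonneg hs.1 hb.1)
  · have h2 : (1 - (s : ℝ)) * a ≤ (1 - (s : ℝ)) * 1 := mul_le_mul_of_nonneg_left ha.2 h1
    have h3 : (s : ℝ) * b ≤ s * 1 := mul_le_mul_of_nonneg_left hb.2 hs.1
    linarith

/-- the straight path in `I` -/
private noncomputable def seg (a b : I) : Path a b where
  toFun s := ⟨(1 - (s : ℝ)) * a + s * b, seg_mem a b s⟩
  continuous_toFun := by fun_prop
  source' := by
    apply Subtype.ext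
    simp
  target' := by
    apply Subtype.ext
    simp

private theorem seg_dist (a b s : I) : dist (seg a b s) a ≤ dist b a := by
  rw [Subtype.dist_eq, Subtype.dist_eq, Real.dist_eq, Real.dist_eq]
  have h : ((seg a b s : I) : ℝ) - a = s * (b - a) := by
    change (1 - (s : ℝ)) * a + s * b - a = s * (b - a)
    ring
  rw [h, abs_mul, abs_of_nonneg s.2.1]
  exact mul_le_of_le_one_left (abs_nonneg _) s.2.2

theorem triv_of_cover {X : Type} [TopologicalSpace X] {G : Type} [Group G] (F : PF X G) (g : X → G)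
    {U V : Set X} (hU : IsOpen U) (hV : IsOpen V) (hUV : ∀ x, x ∈ U ∨ x ∈ V)
    (h1 : ∀ (x y : X) (p : Path x y), (∀ t, p t ∈ U) → F.Φ p = (g x)⁻¹ * g y)
    (h2 : ∀ (x y : X) (p : Path x y), (∀ t, p t ∈ V) → F.Φ p = (g x)⁻¹ * g y) : Triv F g := by
  intro x y p
  haveI hc : ContractibleSpace I := (convex_Icc (0 : ℝ) 1).contractibleSpace ⟨0, by simp⟩
  haveI hpc : PreconnectedSpace I := Subtype.preconnectedSpace isPreconnected_Icc
  let k : I → G := fun t => F.Φ ((seg 0 t).map p.continuous)
  have hk : ∀ (a b : I) (l : Path a b), k a * F.Φ (l.map p.continuous) = k b := by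
    intro a b l
    have h := F.hom' _ _
      ((SimplyConnectedSpace.paths_homotopic ((seg 0 a).trans l) (seg 0 b)).map
        p.toContinuousMap)
    have e : ((seg 0 a).trans l).map p.continuous =
        ((seg 0 a).map p.continuous).trans (l.map p.continuous) := Path.map_trans _ _ _
    rw [← F.mul', ← e]
    exact h
  have hloc : IsLocallyConstant fun t : I => g (p t) * (k t)⁻¹ := by
    rw [IsLocallyConstant.iff_eventually_eq]
    have key : ∀ (W : Set X), IsOpen W →
        (∀ (x y : X) (p : Path x y), (∀ t, p t ∈ W) → F.Φ p = (g x)⁻¹ * g y) → ∀ t : I,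
        p t ∈ W → ∀ᶠ t' in nhds t, g (p t') * (k t')⁻¹ = g (p t) * (k t)⁻¹ := by
      intro W hW hWF t ht
      have hopen : IsOpen (p ⁻¹' W) := hW.preimage p.continuous
      obtain ⟨ε, hε, hball⟩ := Metric.isOpen_iff.1 hopen t ht
      filter_upwards [Metric.ball_mem_nhds t hε] with t' ht'
      have e1 := hWF _ _ ((seg t t').map p.continuous) (fun s => by
        have h3 : seg t t' s ∈ Metric.ball t ε :=
          lt_of_le_of_lt (seg_dist t t' s) ht'
        exact hball h3)
      have e2 := hk t t' (seg t t')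
      rw [e1] at e2
      rw [← e2]
      group
    intro t
    rcases hUV (p t) with h | h
    · exact key U hU h1 t h
    · exact key V hV h2 t h
  have hconst := hloc.apply_eq_of_preconnectedSpace 0 1
  let idp : Path (0 : I) 1 := ⟨ContinuousMap.id I, rfl, rfl⟩
  have e1 := hk 0 1 idp
  have e2 : idp.map p.continuous = p.cast p.source p.target := by
    ext t
    rfl
  rw [e2, F.cast'] at e1
  rw [p.source, p.target, ← e1] at hconst
  have e3 : g x * (k 0)⁻¹ = g y * (F.Φ p)⁻¹ * (k 0)⁻¹ := by
    rw [hconst]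
    group
  have e4 := mul_right_cancel e3
  rw [e4]
  group

end Pool.H93.VK
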