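import Mathlib

/-!
# Functionals on paths (van Kampen without fundamental groups)

`PF X G`: a multiplicative, homotopy invariant functional on the paths of `X` with values in the group `G`. `Triv F g`: `F` is the coboundary of `g`.
`SC1 X`: every functional on `X` with values in any group is trivial (all path components of `X` are simply connected).
-/

set_option autoImplicit false

namespace Pool.H93.VK

open unitInterval

/-- a multiplicative homotopy invariant functional on paths -/
structure PF (X : Type) [TopologicalSpace X] (G : Type) [Group G] where
  Φ : ∀ {x y : X}, Path x y → G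
  mul' : ∀ {x y z : X} (p : Path x y) (q : Path y z), Φ (p.trans q) = Φ p * Φ q
  hom' : ∀ {x y : X} (p q : Path x y), p.Homotopic q → Φ p = Φ q

variable {X Y : Type} [TopologicalSpace X] [TopologicalSpace Y] {G : Type} [Group G]

/-- the functional induced by a continuous map -/
def PF.comp (F : PF Y G) (f : C(X, Y)) : PF X G where
  Φ p := F.Φ (p.map f.continuous)
  mul' p q := by rw [Path.map_trans, F.mul']
  hom' p q h := F.hom' _ _ (h.map f)

/-- `F` is the coboundary of `g` -/
def Triv (F : PF X G) (g : X → G) : Prop :=
  ∀ (x y : X) (p : Path x y), F.Φ p = (g x)⁻¹ * g y

variable (X) in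
/-- every functional is trivial -/
def SC1 : Prop := ∀ (G : Type) [Group G] (F : PF X G), ∃ g : X → G, Triv F g

/-- the horizontal paths of a square -/
def row (H : C(I × I, X)) (r : I) : Path (H (0, r)) (H (1, r)) where
  toFun s := H (s, r)
  continuous_toFun := by fun_prop
  source' := rfl
  target' := rfl

/-- the vertical paths of a square -/
def col (H : C(I × I, X)) (s : I) : Path (H (s, 0)) (H (s, 1)) where
  toFun r := H (s, r)
  continuous_toFun := by fun_prop
  source' := rfl
  target' := rfl

end Pool.H93.VK
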