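import Pool.Agent.H93.VK.Bas
import Pool.Agent.H93.HU.Sph

/-!
# [H93 VK FSC] `Fil 0`, `Fil 1` and paths

PROOFS (complete). `fil0_iff`: from left to right: `f v = if v 0 = 0 then x else y` is continuous on `Bd 1` (two isolated points: `Bd 1 = {v | v 0 = 0 ∨ v 0 = 1}`), the extension `g` gives the path `t ↦ g (fun _ => t)`. Conversely a path from `f (fun _ => 0)` to `f (fun _ => 1)`.
`fil1_iff`: from left to right: `p q : Path x y`; `f v = if v 1 = 0 then p (v 0) else if v 1 = 1 then q (v 0) else if v 0 = 0 then x else y` is continuous on `Bd 2` (it agrees with a continuous function on each of the four closed faces; at the corners they match), the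
extension `g` gives the homotopy `(t, s) ↦ g ![s, t]`. From right to left: `Pool.H93.HU.fil_of_cl` with `q = 0`: a pointed cube `s : C(Cb 1, X)` is a loop at `x₀`, homotopic to the constant path; `cl_hom`, `cl_const` (`y ∈ Bd 1`: `y 0 = 0` or `1`).
-/

set_option autoImplicit false

namespace Pool.H93.VK

open unitInterval Pool.H93.HU

variable {X : Type} [TopologicalSpace X]

private theorem fsc_cl {n : ℕ} (i : Fin n) (e : I) : IsClosed {v : Cb n | v i = e} :=
  isClosed_eq (continuous_apply i) continuous_const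

private theorem fsc_one (v : Cb (0 + 1)) (t : I) (h : v 0 = t) : v = fun _ => t := by
  funext j
  have hj : j = 0 := Fin.ext (by have := j.2; simp only [Fin.val_zero]; omega)
  rw [hj, h]

private theorem fsc_bd1 {v : Cb (0 + 1)} (hv : v ∈ Bd (0 + 1)) : v 0 = 0 ∨ v 0 = 1 := by
  obtain ⟨i, hi⟩ := hv
  have h : i = 0 := Fin.ext (by have := i.2; simp only [Fin.val_zero]; omega)
  rw [h] at hi
  exact hi

private theorem fsc_bd1' (v : Cb (0 + 1)) (h : v 0 = 0 ∨ v 0 = 1) : v ∈ Bd (0 + 1) := ⟨0, h⟩

theorem fil0_iff : Fil X 0 ↔ ∀ x y : X, Joined x y := by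
  classical
  constructor
  · intro h x y
    obtain ⟨g, hg⟩ := h (fun v => if v 0 = 0 then x else y) (by
      have h1 : ContinuousOn (fun v : Cb (0 + 1) => if v 0 = 0 then x else y)
          ({v : Cb (0 + 1) | v 0 = 0} ∪ {v : Cb (0 + 1) | v 0 = 1}) := by
        refine ContinuousOn.union_of_isClosed ?_ ?_ (fsc_cl 0 0) (fsc_cl 0 1)
        · refine (continuousOn_const (c := x)).congr fun v hv => ?_
          exact if_pos hv
        · refine (continuousOn_const (c := y)).congr fun v hv => ?_
          refine if_neg ?_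
          have hv' : v 0 = 1 := hv
          rw [hv']
          exact one_ne_zero
      exact h1.mono fun v hv => fsc_bd1 hv)
    refine ⟨⟨⟨fun t => g (fun _ => t), by fun_prop⟩, ?_, ?_⟩⟩
    · exact (hg (fun _ => 0) (fsc_bd1' _ (Or.inl rfl))).trans (if_pos rfl)
    · exact (hg (fun _ => 1) (fsc_bd1' _ (Or.inr rfl))).trans (if_neg one_ne_zero)
  · intro h f _
    obtain ⟨p⟩ := h (f fun _ => 0) (f fun _ => 1)
    refine ⟨⟨fun v => p (v 0), p.continuous.comp (continuous_apply _)⟩, fun v hv => ?_⟩
    change p (v 0) = f v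
    rcases fsc_bd1 hv with h0 | h0
    · rw [h0, p.source, fsc_one v 0 h0]
    · rw [h0, p.target, fsc_one v 1 h0]

theorem fil1_iff : Fil X 1 ↔ ∀ (x y : X) (p q : Path x y), p.Homotopic q := by
  classical
  constructor
  · intro h x y p q
    have hz : (1 : I) ≠ 0 := one_ne_zero
    obtain ⟨f, hf⟩ : ∃ f : Cb (1 + 1) → X, f = fun v : Cb (1 + 1) => if v 1 = 0 then p (v 0) else
        if v 1 = 1 then q (v 0) else if v 0 = 0 then x else y := ⟨_, rfl⟩
    have f1 : ∀ v : Cb (1 + 1), v 1 = 0 → f v = p (v 0) := by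
      intro v hv
      rw [hf]
      exact if_pos hv
    have f2 : ∀ v : Cb (1 + 1), v 1 = 1 → f v = q (v 0) := by
      intro v hv
      rw [hf]
      change (if v 1 = 0 then p (v 0) else
        if v 1 = 1 then q (v 0) else if v 0 = 0 then x else y) = _
      rw [if_neg (by rw [hv]; exact hz), if_pos hv]
    have f3 : ∀ v : Cb (1 + 1), v 0 = 0 → f v = x := by
      intro v hv
      by_cases h1 : v 1 = 0
      · rw [f1 v h1, hv, p.source]
      by_cases h2 : v 1 = 1
      · rw [f2 v h2, hv, q.source]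
      rw [hf]
      change (if v 1 = 0 then p (v 0) else
        if v 1 = 1 then q (v 0) else if v 0 = 0 then x else y) = _
      rw [if_neg h1, if_neg h2, if_pos hv]
    have f4 : ∀ v : Cb (1 + 1), v 0 = 1 → f v = y := by
      intro v hv
      by_cases h1 : v 1 = 0
      · rw [f1 v h1, hv, p.target]
      by_cases h2 : v 1 = 1
      · rw [f2 v h2, hv, q.target]
      rw [hf]
      change (if v 1 = 0 then p (v 0) else
        if v 1 = 1 then q (v 0) else if v 0 = 0 then x else y) = _
      rw [if_neg h1, if_neg h2, if_neg (by rw [hv]; exact hz)]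
    have hc : ContinuousOn f (Bd (1 + 1)) := by
      have h1 : ContinuousOn f ((({v : Cb (1 + 1) | v 1 = 0} ∪ {v : Cb (1 + 1) | v 1 = 1}) ∪
          {v : Cb (1 + 1) | v 0 = 0}) ∪ {v : Cb (1 + 1) | v 0 = 1}) := by
        refine ContinuousOn.union_of_isClosed (ContinuousOn.union_of_isClosed
          (ContinuousOn.union_of_isClosed ?_ ?_ (fsc_cl 1 0) (fsc_cl 1 1)) ?_
          ((fsc_cl 1 0).union (fsc_cl 1 1)) (fsc_cl 0 0)) ?_
          (((fsc_cl 1 0).union (fsc_cl 1 1)).union (fsc_cl 0 0)) (fsc_cl 0 1)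
        · exact (p.continuous.comp (continuous_apply 0)).continuousOn.congr fun v hv => f1 v hv
        · exact (q.continuous.comp (continuous_apply 0)).continuousOn.congr fun v hv => f2 v hv
        · exact (continuousOn_const (c := x)).congr fun v hv => f3 v hv
        · exact (continuousOn_const (c := y)).congr fun v hv => f4 v hv
      refine h1.mono ?_
      rintro v ⟨i, hi⟩
      have hi2 : i = 0 ∨ i = 1 := by
        revert i
        intro i _
        fin_cases i
        · exact Or.inl rfl
        · exact Or.inr rfl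
      rcases hi2 with rfl | rfl <;> rcases hi with h2 | h2
      · exact Or.inl (Or.inr h2)
      · exact Or.inr h2
      · exact Or.inl (Or.inl (Or.inl h2))
      · exact Or.inl (Or.inl (Or.inr h2))
    obtain ⟨g, hg⟩ := h f hc
    have hgc : Continuous fun z : I × I => g (![z.2, z.1] : Cb (1 + 1)) := by
      refine g.continuous.comp (continuous_pi fun i => ?_)
      fin_cases i
      · exact continuous_snd
      · exact continuous_fst
    refine ⟨⟨⟨⟨fun z => g (![z.2, z.1] : Cb (1 + 1)), hgc⟩, fun t => ?_, fun t => ?_⟩,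
      fun t z hz' => ?_⟩⟩
    · change g (![t, 0] : Cb (1 + 1)) = p t
      rw [hg _ ⟨1, Or.inl rfl⟩, f1 _ rfl]
      rfl
    · change g (![t, 1] : Cb (1 + 1)) = q t
      rw [hg _ ⟨1, Or.inr rfl⟩, f2 _ rfl]
      rfl
    · change g (![z, t] : Cb (1 + 1)) = p z
      rcases hz' with h0 | h0
      · rw [h0, hg _ ⟨0, Or.inl rfl⟩, f3 _ rfl, p.source]
      · rw [Set.mem_singleton_iff] at h0
        rw [h0, hg _ ⟨0, Or.inr rfl⟩, f4 _ rfl, p.target]
  · intro h
    refine fil_of_cl (q := 0) fun x₀ s hs => ?_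
    obtain ⟨p, hp⟩ : ∃ p : Path x₀ x₀, ∀ t, p t = s (fun _ => t) :=
      ⟨⟨⟨fun t => s (fun _ => t), by fun_prop⟩, hs _ (fsc_bd1' _ (Or.inl rfl)),
        hs _ (fsc_bd1' _ (Or.inr rfl))⟩, fun t => rfl⟩
    obtain ⟨F⟩ := h x₀ x₀ p (Path.refl x₀)
    have hFc : Continuous fun z : Cb (0 + 1) × I => F (z.2, z.1 0) :=
      (map_continuous F).comp (continuous_snd.prodMk ((continuous_apply 0).comp continuous_fst))
    refine (cl_hom s (ContinuousMap.const (Cb (0 + 1)) x₀) hs (fun _ _ => rfl)
      ⟨fun z => F (z.2, z.1 0), hFc⟩ (fun y => ?_) (fun y => ?_) (fun y hy r => ?_)).trans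
      (cl_const fun _ _ => rfl)
    · change F (0, y 0) = s y
      rw [F.apply_zero]
      change p (y 0) = s y
      rw [hp, fsc_one y (y 0) rfl]
    · change F (1, y 0) = x₀
      rw [F.apply_one]
      rfl
    · change F (r, y 0) = x₀
      rcases fsc_bd1 hy with h0 | h0
      · rw [h0]; exact F.source r
      · rw [h0]; exact F.target r

end Pool.H93.VK
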