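import Pool.Agent.H93.VK.Vpo
import Pool.Agent.H93.HM.Pch

/-!
# [H93 VK VCL] Functionals on a space with attached cells

PROOF (complete). `triv_po` with `A = bF F k` (`collar_prod (collar_cube k)`); `h2` of `triv_po`: a path in `F × Qb k` has constant first coordinate `f` (`F` discrete), so it is the image under `inD f` of a path in `Qb k`; `chr φ f = (jBc ..).comp (inD f)`.
-/

set_option autoImplicit false

namespace Pool.H93.VK

open Pool.Agent.H18.AR Pool.H93.HM Pool.Agent.H4.CU

theorem triv_cells {F Y : Type} [TopologicalSpace F] [DiscreteTopology F] [TopologicalSpace Y]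
    {k : ℕ} {φ : F × Qb k → Y} (hD : POData (bF F k) φ) (hY : LCS Y) (hB : LCS (F × Qb k))
    {G : Type} [Group G] (Ψ : PF (PO (bF F k) φ) G) (g : PO (bF F k) φ → G)
    (h1 : Triv (Ψ.comp (jYc (bF F k) φ)) (fun y => g (PO.jY (bF F k) φ y)))
    (h2 : ∀ f, Triv (Ψ.comp (chr φ f)) (fun y => g (chr φ f y))) : Triv Ψ g := by
  have hc : Collar (bF F k) := collar_prod (collar_cube k)
  refine triv_po hD hY hB hc Ψ g h1 ?_
  rintro ⟨f, b⟩ ⟨f', b'⟩ p
  have hcont : Continuous (fun t => (p t).1) := continuous_fst.comp p.continuous
  have hl := (IsLocallyConstant.iff_continuous _).2 hcont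
  have hf : ∀ t, (p t).1 = f := by
    intro t
    have h := hl.apply_eq_of_preconnectedSpace t 0
    rw [h, p.source]
  have hff : f' = f := by
    have h := hf 1
    rw [p.target] at h
    exact h
  subst hff
  let q : Path b b' :=
    { toFun := fun t => (p t).2
      continuous_toFun := continuous_snd.comp p.continuous
      source' := by rw [p.source]
      target' := by rw [p.target] }
  have hp : p = q.map (inD f').continuous := by
    ext t
    · exact hf t
    · rfl
  rw [hp]
  exact h2 f' b b' q

end Pool.H93.VK
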