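import Pool.Agent.H93.VK.Cvr
import Pool.Agent.H93.HM.Poq

/-!
# [H93 VK VPO] Functionals on a collared pushout

PROOF (complete). `triv_of_cover` with `U = jB '' Aᶜ`, `V = range jY ∪ jB '' NB` (open: see `PO.compl_openEmbedding` and the proof of `PO.ane_po` in `PoN.lean`; they cover because `A ⊆ NB`, `PO.cases_mk`).
`U`: a path `p` in `U` lifts to a path in `B`: `b t = e.symm (p t)` with the open embedding `e : Aᶜ → PO` (`compl_openEmbedding`, `Topology.IsOpenEmbedding` / `IsEmbedding.toHomeomorph`), `jB (b t) = p t`; `h2` for this path (`Path.map`, `PF.cast'`).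
`V`: let `D : PO × I → PO`, `D (x, t) = PO.desc (fun y => jY y) (fun b => jB (dB (b, t))) x`, continuous on `V × univ` (as in `PoN.lean`: `continuousOn_param`), `D (x, 0) = x`, `D (x, 1) ∈ range jY` for `x ∈ V`. For a path `p` in `V` the square `H (s, r) = D (p s, 1 - r)` is
continuous: `row H 1 = p` (up to cast), `row H 0` is a path in `range jY`, the image under `jY` of a path of `Y` (`jY_closedEmbedding`), so `h1` applies; `col H s`: `r ↦ D (p s, 1 - r)`: if `p s = jB b`, `b ∈ NB`, it is the image under `jB` of the path `r ↦ dB (b, 1 - r)` of `B`, `h2` applies;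
if `p s = jY y` it is constant (`PF.const'`). In both cases `Φ (col H s) = (g (H (s, 0)))⁻¹ * g (H (s, 1))`. `PF.square` gives `Φ p = Φ (row H 1) = (Φ (col H 0))⁻¹ * Φ (row H 0) * Φ (col H 1) = (g x)⁻¹ * g y`.
-/

set_option autoImplicit false

namespace Pool.H93.VK

open Pool.Agent.H18.AR Pool.H93.HM

private theorem vpo_lift {Z C : Type} [TopologicalSpace Z] [TopologicalSpace C] {G : Type}
    [Group G] (F : PF Z G) (g : Z → G) (j : C(C, Z)) (h : Triv (F.comp j) (fun b => g (j b)))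
    {x y : Z} (p : Path x y) (b : unitInterval → C) (hb : Continuous b)
    (hp : ∀ t, j (b t) = p t) : F.Φ p = (g x)⁻¹ * g y := by
  have hx : j (b 0) = x := by rw [hp, p.source]
  have hy : j (b 1) = y := by rw [hp, p.target]
  obtain ⟨q, hq⟩ : ∃ q : Path (b 0) (b 1), ∀ t, q t = b t := ⟨⟨⟨b, hb⟩, rfl, rfl⟩, fun _ => rfl⟩
  have hpq : p = (q.map j.continuous).cast hx.symm hy.symm := by
    ext t
    rw [Path.cast_coe, Path.map_coe, Function.comp_apply, hq, hp]
  have h1 : F.Φ (q.map j.continuous) = (g (j (b 0)))⁻¹ * g (j (b 1)) := h _ _ q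
  rw [hpq, F.cast', h1, hx, hy]

theorem triv_po {Y B : Type} [TopologicalSpace Y] [TopologicalSpace B] {A : Set B} {φ : B → Y}
    (hD : POData A φ) (hY : LCS Y) (hB : LCS B) (hc : Collar A) {G : Type} [Group G]
    (F : PF (PO A φ) G) (g : PO A φ → G) (h1 : Triv (F.comp (jYc A φ)) (fun y => g (PO.jY A φ y)))
    (h2 : Triv (F.comp (jBc A φ)) (fun b => g (PO.jB A φ b))) : Triv F g := by
  obtain ⟨NB, dB, hN, hAN, hd, hdN, hd0, hd1, hdA⟩ := hc
  have hjY : PO.jY A φ ⁻¹' (Set.range (PO.jY A φ) ∪ PO.jB A φ '' NB) = Set.univ := by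
    ext y
    exact ⟨fun _ => Set.mem_univ _, fun _ => Or.inl ⟨y, rfl⟩⟩
  have hjB : PO.jB A φ ⁻¹' (Set.range (PO.jY A φ) ∪ PO.jB A φ '' NB) = NB := by
    ext b
    constructor
    · intro hb
      by_cases hbA : b ∈ A
      · exact hAN hbA
      · rcases hb with ⟨y, hy⟩ | ⟨b', hb', e⟩
        · exact absurd hy.symm (PO.jB_ne_jY hbA y)
        · by_cases hb'A : b' ∈ A
          · rw [PO.jB_mem hb'A] at e
            exact absurd e.symm (PO.jB_ne_jY hbA _)
          · rw [← PO.jB_inj hb'A hbA e]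
            exact hb'
    · intro hb
      exact Or.inr ⟨b, hb, rfl⟩
  have hNo : IsOpen (Set.range (PO.jY A φ) ∪ PO.jB A φ '' NB) := by
    rw [PO.isOpen_iff, hjY, hjB]
    exact ⟨isOpen_univ, hN⟩
  have hdesc : ∀ t : unitInterval, ∀ a ∈ A, PO.jB A φ (dB (a, t)) = PO.jY A φ (φ a) := by
    intro t a ha
    rw [hdA a ha t, PO.jB_mem ha]
  obtain ⟨d, hddef⟩ : ∃ d : PO A φ × unitInterval → PO A φ, d = fun z =>
      PO.desc (A := A) (φ := φ) (fun y => PO.jY A φ y) (fun b => PO.jB A φ (dB (b, z.2))) z.1 :=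
    ⟨_, rfl⟩
  have dY : ∀ y t, d (PO.jY A φ y, t) = PO.jY A φ y := by
    intro y t
    rw [hddef]
    rfl
  have dBB : ∀ b t, d (PO.jB A φ b, t) = PO.jB A φ (dB (b, t)) := by
    intro b t
    rw [hddef]
    exact PO.desc_jB _ _ (hdesc t) b
  have hdc : ContinuousOn d ((Set.range (PO.jY A φ) ∪ PO.jB A φ '' NB) ×ˢ Set.univ) := by
    refine PO.continuousOn_param hD hY hB _ hNo d ?_ ?_
    · exact (PO.jY_continuous.comp continuous_fst).continuousOn.congr fun z _ => dY z.1 z.2
    · rw [hjB]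
      exact (PO.jB_continuous.comp_continuousOn hd).congr fun z _ => dBB z.1 z.2
  have hoe := PO.compl_openEmbedding hD hY hB
  have hr : Set.range (fun b : {b : B // b ∉ A} => PO.jB A φ b.1) = PO.jB A φ '' Aᶜ := by
    ext x
    constructor
    · rintro ⟨b, rfl⟩
      exact ⟨b.1, b.2, rfl⟩
    · rintro ⟨b, hb, rfl⟩
      exact ⟨⟨b, hb⟩, rfl⟩
  have hO₁ : IsOpen (PO.jB A φ '' Aᶜ) := by
    rw [← hr]
    exact hoe.isOpen_range
  refine triv_of_cover F g hO₁ hNo (fun x => ?_) (fun x y p hp => ?_) (fun x y p hp => ?_)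
  · rcases PO.cases_mk x with ⟨y, rfl⟩ | ⟨b, hb, rfl⟩
    · exact Or.inr (Or.inl ⟨y, rfl⟩)
    · exact Or.inl ⟨b, hb, rfl⟩
  · have hex : ∀ t, ∃ b : {b : B // b ∉ A}, PO.jB A φ b.1 = p t := by
      intro t
      obtain ⟨b, hb, hbt⟩ := hp t
      exact ⟨⟨b, hb⟩, hbt⟩
    choose b hb using hex
    have hbc : Continuous b := by
      rw [hoe.isEmbedding.isInducing.continuous_iff]
      have h3 : (fun b : {b : B // b ∉ A} => PO.jB A φ b.1) ∘ b = p := funext hb
      rw [h3]
      exact p.continuous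
    exact vpo_lift F g (jBc A φ) h2 p (fun t => (b t).1) (continuous_subtype_val.comp hbc) hb
  · have hHc : Continuous fun z : unitInterval × unitInterval => d (p z.1, unitInterval.symm z.2) :=
      hdc.comp_continuous ((p.continuous.comp continuous_fst).prodMk
        (unitInterval.continuous_symm.comp continuous_snd)) (fun z => ⟨hp z.1, Set.mem_univ _⟩)
    obtain ⟨H, hH⟩ : ∃ H : C(unitInterval × unitInterval, PO A φ), ∀ s r,
        H (s, r) = d (p s, unitInterval.symm r) := ⟨⟨_, hHc⟩, fun _ _ => rfl⟩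
    have hd0' : ∀ z ∈ (Set.range (PO.jY A φ) ∪ PO.jB A φ '' NB), d (z, 0) = z := by
      rintro z (⟨y, rfl⟩ | ⟨b, hb, rfl⟩)
      · exact dY y 0
      · rw [dBB, hd0 b hb]
    have hH1 : ∀ s, H (s, 1) = p s := by
      intro s
      rw [hH, unitInterval.symm_one]
      exact hd0' _ (hp s)
    have hcol : ∀ s, F.Φ (col H s) = (g (H (s, 0)))⁻¹ * g (H (s, 1)) := by
      intro s
      rcases hp s with ⟨y, hy⟩ | ⟨b, hb, hbs⟩
      · have hcst : ∀ r, H (s, r) = PO.jY A φ y := by
          intro r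
          rw [hH, ← hy, dY]
        rw [F.const' (col H s) (fun r => (hcst r).trans (hcst 0).symm), hcst, hcst, inv_mul_cancel]
      · refine vpo_lift F g (jBc A φ) h2 (col H s) (fun r => dB (b, unitInterval.symm r)) ?_ ?_
        · exact hd.comp_continuous (continuous_const.prodMk unitInterval.continuous_symm)
            (fun r => ⟨hb, Set.mem_univ _⟩)
        · intro r
          show PO.jB A φ (dB (b, unitInterval.symm r)) = H (s, r)
          rw [hH, ← hbs, dBB]
    have hrow0 : F.Φ (row H 0) = (g (H (0, 0)))⁻¹ * g (H (1, 0)) := by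
      have hex : ∀ s, ∃ y : Y, PO.jY A φ y = H (s, 0) := by
        intro s
        rw [hH, unitInterval.symm_zero]
        rcases hp s with ⟨y, hy⟩ | ⟨b, hb, hbs⟩
        · exact ⟨y, by rw [← hy, dY]⟩
        · exact ⟨φ (dB (b, 1)), by rw [← hbs, dBB, PO.jB_mem (hd1 b hb)]⟩
      choose c hcs using hex
      have hcc : Continuous c := by
        rw [(PO.jY_closedEmbedding hD hY hB).isEmbedding.isInducing.continuous_iff]
        have h3 : PO.jY A φ ∘ c = fun s => H (s, 0) := funext hcs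
        rw [h3]
        exact H.continuous.comp (continuous_id.prodMk continuous_const)
      exact vpo_lift F g (jYc A φ) h1 (row H 0) c hcc hcs
    have hx : x = H (0, 1) := by rw [hH1, p.source]
    have hy : y = H (1, 1) := by rw [hH1, p.target]
    have hpr : p = (row H 1).cast hx hy := by
      ext s
      rw [Path.cast_coe]
      exact (hH1 s).symm
    have hsq := F.square H
    rw [hcol 0, hcol 1, hrow0] at hsq
    rw [hpr, F.cast', hx, hy]
    have h5 : F.Φ (row H 1) = ((g (H (0, 0)))⁻¹ * g (H (0, 1)))⁻¹ *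
        ((g (H (0, 0)))⁻¹ * g (H (1, 0)) * ((g (H (1, 0)))⁻¹ * g (H (1, 1)))) := by
      rw [← hsq, inv_mul_cancel_left]
    rw [h5]
    group

end Pool.H93.VK
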